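import Pool.Agent.helper68.BD2.Spec

/-!
# Row bd2:NUD (MP_4467b5_nt)
-/

set_option autoImplicit false

open Complex MeasureTheory

namespace Pool.Agent.BEY

open Pool.Agent.helper84.DM Pool.Agent.helper78.ED Pool.Agent.DH Pool.Agent.LDH

theorem NUD : NUD_stmt := by
  intro ε hε
  obtain ⟨ε₁, he⟩ : ∃ ε₁, ε₁ = min (ε / 4) (1 / 32) := ⟨_, rfl⟩
  obtain ⟨δ₁, hd⟩ : ∃ δ₁, δ₁ = min (ε / 200) (1 / 200) := ⟨_, rfl⟩
  have e1 : 0 < ε₁ := by rw [he]; exact lt_min (by linarith) (by norm_num)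
  have e2 : ε₁ ≤ ε / 4 := by rw [he]; exact min_le_left _ _
  have e3 : ε₁ ≤ 1 / 32 := by rw [he]; exact min_le_right _ _
  have d1 : 0 < δ₁ := by rw [hd]; exact lt_min (by linarith) (by norm_num)
  have d2 : δ₁ ≤ ε / 200 := by rw [hd]; exact min_le_left _ _
  have d3 : δ₁ ≤ 1 / 200 := by rw [hd]; exact min_le_right _ _
  refine ⟨ε₁, δ₁, e1, d1, by linarith, fun δ K C₁ hδ hδ1 hK hC₁ => ?_⟩
  have hK0 : 0 < K := by linarith
  refine ⟨2 * C₁ * K ^ 12, K ^ 32, by positivity, fun T σ A M hT hσ hσ1 hA hM hMT V hV => ?_⟩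
  have hT1 : 1 ≤ T := (one_le_pow₀ hK).trans hT
  have hT0 : 0 < T := by linarith
  have hσ0 : 0 < σ := by linarith
  obtain ⟨a, ha⟩ : ∃ a, a = A / 4 * (σ - 1 / 2) := ⟨_, rfl⟩
  obtain ⟨f1, f2, f3, f4, f5, f6⟩ := Ok_facts hA
  obtain ⟨y, hy⟩ : ∃ y, y = A * σ := ⟨_, rfl⟩
  rw [← hy] at f3 f4 f5 f6
  have ha' : a = y / 4 - A / 8 := by
    rw [ha, hy]
    ring
  have hb' : A * (1 - σ) = A - y := by
    rw [hy]
    ring
  have hM1 : T ^ a ≤ M ^ (σ - 1 / 2) := by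
    rw [ha, Real.rpow_mul hT0.le]
    exact Real.rpow_le_rpow (Real.rpow_nonneg hT0.le _) hM (by linarith)
  obtain ⟨V₀, hV₀⟩ : ∃ V₀, V₀ = T ^ (a - 4 * δ) / K := ⟨_, rfl⟩
  have hV₀0 : 0 < V₀ := by rw [hV₀]; positivity
  have hVV : V₀ ≤ V := by
    rw [hV₀, hV]
    apply div_le_div_of_nonneg_right _ hK0.le
    rw [sub_eq_add_neg, Real.rpow_add hT0]
    exact mul_le_mul_of_nonneg_right hM1 (Real.rpow_nonneg hT0.le _)
  have hKT : K ≤ T ^ (1 / 32 : ℝ) := by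
    have h1 : K = (K ^ 32) ^ (1 / 32 : ℝ) := by
      rw [← Real.rpow_natCast, ← Real.rpow_mul hK0.le]
      norm_num
    rw [h1]
    exact Real.rpow_le_rpow (by positivity) hT (by norm_num)
  constructor
  · refine le_trans ?_ hVV
    rw [hV₀, le_div_iff₀ hK0]
    have h1 : T ^ ε₁ * K ≤ T ^ ε₁ * T ^ (1 / 32 : ℝ) :=
      mul_le_mul_of_nonneg_left hKT (Real.rpow_nonneg hT0.le _)
    refine h1.trans ?_
    rw [← Real.rpow_add hT0]
    apply Real.rpow_le_rpow_of_exponent_le hT1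
    rw [ha']
    linarith
  · have hpow : ∀ m : ℕ, V ^ (-(m : ℝ)) ≤ K ^ m * T ^ (-((m : ℝ) * (a - 4 * δ))) := by
      intro m
      have h1 : V ^ (-(m : ℝ)) ≤ V₀ ^ (-(m : ℝ)) :=
        Real.rpow_le_rpow_of_nonpos hV₀0 hVV (by linarith [Nat.cast_nonneg (α := ℝ) m])
      refine h1.trans (le_of_eq ?_)
      rw [hV₀, Real.div_rpow (Real.rpow_nonneg hT0.le _) hK0.le, ← Real.rpow_mul hT0.le,
        Real.rpow_neg hK0.le, Real.rpow_natCast, div_inv_eq_mul, mul_comm]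
      congr 2
      ring
    have h12 := hpow 12
    have h6 := hpow 6
    push_cast at h12 h6
    have g1 : T ^ 2 * V ^ (-12 : ℝ) ≤ K ^ 12 * T ^ (48 * δ + A * (1 - σ)) := by
      have h1 := mul_le_mul_of_nonneg_left h12 (show 0 ≤ T ^ 2 by positivity)
      refine h1.trans ?_
      have h2 : T ^ 2 * (K ^ 12 * T ^ (-(12 * (a - 4 * δ)))) = K ^ 12 * T ^ (2 - 12 * (a - 4 * δ)) := by
        rw [show 2 - 12 * (a - 4 * δ) = 2 + -(12 * (a - 4 * δ)) by ring, Real.rpow_add hT0]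
        have h3 : T ^ (2 : ℝ) = T ^ 2 := by exact_mod_cast Real.rpow_natCast T 2
        rw [h3]
        ring
      rw [h2]
      apply mul_le_mul_of_nonneg_left _ (by positivity)
      apply Real.rpow_le_rpow_of_exponent_le hT1
      rw [hb', ha']
      linarith
    have g2 : T * V ^ (-6 : ℝ) ≤ K ^ 12 * T ^ (48 * δ + A * (1 - σ)) := by
      have h1 := mul_le_mul_of_nonneg_left h6 hT0.le
      refine h1.trans ?_
      have h2 : T * (K ^ 6 * T ^ (-(6 * (a - 4 * δ)))) = K ^ 6 * T ^ (1 - 6 * (a - 4 * δ)) := by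
        rw [show 1 - 6 * (a - 4 * δ) = 1 + -(6 * (a - 4 * δ)) by ring, Real.rpow_add hT0, Real.rpow_one]
        ring
      rw [h2]
      have h3 : K ^ 6 ≤ K ^ 12 := pow_le_pow_right₀ hK (by norm_num)
      refine mul_le_mul h3 ?_ (Real.rpow_nonneg hT0.le _) (by positivity)
      apply Real.rpow_le_rpow_of_exponent_le hT1
      rw [hb', ha']
      linarith
    have g3 : C₁ * T ^ ε₁ * (T ^ 2 * V ^ (-12 : ℝ) + T * V ^ (-6 : ℝ)) ≤
        C₁ * T ^ ε₁ * (2 * (K ^ 12 * T ^ (48 * δ + A * (1 - σ)))) := by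
      apply mul_le_mul_of_nonneg_left _ (by positivity)
      linarith
    refine g3.trans ?_
    have g4 : C₁ * T ^ ε₁ * (2 * (K ^ 12 * T ^ (48 * δ + A * (1 - σ)))) =
        2 * C₁ * K ^ 12 * T ^ (ε₁ + 48 * δ) * T ^ (A * (1 - σ)) := by
      rw [Real.rpow_add hT0, Real.rpow_add hT0]
      ring
    rw [g4]
    apply mul_le_mul_of_nonneg_right _ (Real.rpow_nonneg hT0.le _)
    apply mul_le_mul_of_nonneg_left _ (by positivity)
    apply Real.rpow_le_rpow_of_exponent_le hT1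
    linarith

end Pool.Agent.BEY
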